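import Pool.Agent.X263.Bc.Fin

/-!
Let `R` be a factorial domain and `Γ` a group with unique products. An invertible matrix over `RΓ`
whose entries off one row and one column are of the form `r · g i · h j` with `r` in `R` represents
in `K₁(RΓ)` the sum of the class of its augmentation (a matrix over `R`) and of the class of an
element of `Γ`.
-/

set_option autoImplicit false

namespace Pool.Agent.Results.MP_c052b4_al.BorderedMatrices

open Matrix

theorem result (R : Type) [CommRing R] [IsDomain R] [UniqueFactorizationMonoid R]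
    (Γ : Type) [Group Γ] [UniqueProds Γ] (n : ℕ)
    (A : (Matrix (Fin n) (Fin n) (MonoidAlgebra R Γ))ˣ) (i₀ j₀ : Fin n) (g h : Fin n → Γ)
    (hA : ∀ i j, i ≠ i₀ → j ≠ j₀ → ∃ r : R,
      (A : Matrix (Fin n) (Fin n) (MonoidAlgebra R Γ)) i j = MonoidAlgebra.single (g i * h j) r) :
    ∃ (m : ℕ) (γ : Γ)
      (C : (Matrix (Fin n ⊕ Fin (m + 1)) (Fin n ⊕ Fin (m + 1)) (MonoidAlgebra R Γ))ˣ),
      C ∈ commutator (Matrix (Fin n ⊕ Fin (m + 1)) (Fin n ⊕ Fin (m + 1)) (MonoidAlgebra R Γ))ˣ ∧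
      Matrix.fromBlocks (A : Matrix (Fin n) (Fin n) (MonoidAlgebra R Γ)) 0 0 1 =
        Matrix.diagonal (fun i : Fin n ⊕ Fin (m + 1) => if i = Sum.inr (0 : Fin (m + 1)) then
          (MonoidAlgebra.single γ 1 : MonoidAlgebra R Γ) else 1) *
        (C : Matrix (Fin n ⊕ Fin (m + 1)) (Fin n ⊕ Fin (m + 1)) (MonoidAlgebra R Γ)) *
        Matrix.fromBlocks ((A : Matrix (Fin n) (Fin n) (MonoidAlgebra R Γ)).map
          (fun x => MonoidAlgebra.single (1 : Γ) (x.coeff.sum fun _ r => r))) 0 0 1 := by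
  obtain ⟨m, γ, C, hC, h⟩ := X263.Bc.explicit A (X263.Bc.border (X263.Bc.QP R Γ)
    (fun κ _ _ B => X263.Bc.QQ_im B) A i₀ j₀ g h hA)
  refine ⟨m, γ, C, hC, ?_⟩
  rw [h]
  congr 2
  ext1 i j
  rw [Matrix.map_apply, Matrix.map_apply]
  change MonoidAlgebra.single 1 (X263.Bc.aug _) = _
  congr 1
  simp [X263.Bc.aug, MonoidAlgebra.lift_apply]

end Pool.Agent.Results.MP_c052b4_al.BorderedMatrices
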