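import Pool.Agent.X201.FJ.NFree

/-!
# Extensions of free products

`C` is any class of groups with the closure properties `ClosedE C` such that every extension of a group
in `C` by a free kernel (of any rank) is in `C`. The class of the groups that satisfy the K-theoretic
Farrell–Jones conjecture with coefficients and finite wreath products is such a class.

Let `N` be a normal subgroup of `G` which acts without inversions on a tree such that all edge stabilizers
are trivial; by Bass–Serre theory this means that `N` is the free product of some of the vertex stabilizers
`N_v` and a free group. Suppose that conjugation by the elements of `G` permutes the nontrivial vertex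
stabilizers (`G` need not act on the tree), and that `G / N` is in `C`. Then `G` is in `C` if and only if the
normalizers in `G` of all nontrivial vertex stabilizers `N_v` are in `C`.
-/

set_option autoImplicit false

namespace Pool.Agent.Results.MP_c052b4_al.NormalFreeProducts

open Pool.Agent.Y110.FJ Pool.Agent.X201.FJ

/-- Let `C` be a class of groups with the closure properties `ClosedE C` which is closed under extensions
with free kernel, and let the normal subgroup `N` of `G` act without inversions on the tree `T` with
trivial edge stabilizers such that conjugation by the elements of `G` permutes the nontrivial vertex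
stabilizers. If `G ⧸ N` is in `C`, then `G` is in `C` if and only if the normalizers in `G` of all
nontrivial vertex stabilizers are in `C`. -/
theorem result (C : ∀ (G : Type) [Group G], Prop) (hC : ClosedE C)
    (hFK : ∀ (H : Type) [Group H] (K : Subgroup H) [K.Normal], IsFreeGroup K → C (H ⧸ K) → C H)
    (G V : Type) [Group G] (N : Subgroup G) [N.Normal] [MulAction N V] (T : SimpleGraph V)
    (hT : T.IsTree) (hadj : ∀ (n : N) (u v : V), T.Adj u v → T.Adj (n • u) (n • v))
    (hinv : ∀ (n : N) (u : V), T.Adj u (n • u) → n • n • u ≠ u)
    (hfix : ∀ (n : N) (u v : V), T.Adj u v → n • u = u → n • v = v → n = 1)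
    (hperm : ∀ (g : G) (v : V), (∃ n : N, n ≠ 1 ∧ n • v = v) →
      ∃ w : V, ∀ n : N, n • v = v ↔ MulAut.conjNormal g n • w = w)
    (hQ : C (G ⧸ N)) :
    C G ↔ ∀ v : V, (∃ n : N, n ≠ 1 ∧ n • v = v) →
      C (Subgroup.normalizer ((MulAction.stabilizer N v).map N.subtype : Set G)) :=
  ⟨fun h _ _ => hC.base.of_injective _ _ (Subgroup.subtype _) (Subgroup.subtype_injective _) h,
    fun h => nfree hC hFK N hT hadj hinv hfix hperm hQ h⟩

end Pool.Agent.Results.MP_c052b4_al.NormalFreeProducts
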