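import Pool.Agent.X263.PL.Conj
import Pool.Agent.H219.WhH.Nil
import Pool.Agent.Y72.Kd.DetKd

/-!
# `K₁(K[Γ])` for piecewise linear groups: the Dennis trace and determinants

Let `K` be a field of characteristic zero (a regular ring) and `Γ` a group of increasing piecewise
affine bijections, with finitely many pieces, of a linearly ordered field `F`; for example Thompson's
group `F`, or any group of piecewise linear orientation preserving homeomorphisms of a compact
interval or of the real line. If the assembly map in degree one is surjective, then every invertible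
matrix `A` over `K[Γ]` has the class of `a · γ` in `K₁(K[Γ])`, `a ∈ K`, `γ ∈ Γ`. We show that this
cannot be refuted (1) by the Dennis trace, and (2) by determinants of representations over extension
fields, up to algebraic numbers.
-/

set_option autoImplicit false

namespace Pool.Agent.Results.MP_c052b4_al.PiecewiseLinearTraces

open H219.WhC H219.WhH Pool.Agent.Y72.Kd Pool.Agent.X263.PL

universe t u v w

/-- `f : F → F` is piecewise affine with finitely many pieces: there is a finite set `S` such that
`f` is affine on every closed interval which has no point of `S` in its interior. -/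
def PiecewiseAffine {F : Type t} [Field F] [LinearOrder F] (f : F → F) : Prop :=
  ∃ S : Finset F, ∀ a b : F, a ≤ b → (∀ s ∈ S, ¬ (a < s ∧ s < b)) →
    ∃ m c : F, ∀ x, a ≤ x → x ≤ b → f x = m * x + c

/-- Let `Γ` be a group of piecewise affine increasing bijections of the ordered field `F` with
finitely many pieces, `K` a field of characteristic zero and `A` an invertible matrix over `K[Γ]`.
(1) There is `γ ∈ Γ` such that every Hochschild `1`-cocycle `f` on `K[Γ]` whose values on pairs of
group elements lie in a finitely generated subring of `K` takes the same value on the Dennis trace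
of `A` and on that of `γ`.
(2) There is `γ ∈ Γ` such that for every representation `ρ` of `Γ` over every extension field of `K`
the determinant of `A` in `ρ` is `(det ε(A)) ^ dim ρ * det ρ(γ)`, up to a factor algebraic
over `ℚ`. -/
theorem result {F : Type t} [Field F] [LinearOrder F] [IsStrictOrderedRing F]
    {Γ : Type v} [Group Γ] (φ : Γ →* (F ≃o F)) (hφ : Function.Injective φ)
    (hPL : ∀ g, PiecewiseAffine (φ g)) (K : Type u) [Field K] [CharZero K]
    (n : ℕ) (A : (Matrix (Fin n) (Fin n) (MonoidAlgebra K Γ))ˣ) :
    (∃ γ : Γ, ∀ (s : Finset K) (f : Γ → Γ → K),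
      (∀ x y, f x y ∈ Algebra.adjoin ℤ (s : Set K)) →
      (∀ x y z : Γ, f (x * y) z - f x (y * z) + f (z * x) y = 0) →
      (∑ i, ∑ j, ((A⁻¹).val i j).coeff.sum fun g b =>
          (A.val j i).coeff.sum fun h a => b * a * f g h) = f γ⁻¹ γ) ∧
    (∃ γ : Γ, ∀ (L : Type w) [Field L] [CharZero L] (ι : K →+* L) (d : ℕ)
      (ρ : Γ →* GL (Fin d) L), ∃ α : L, α ≠ 0 ∧ IsAlgebraic ℚ α ∧
      (Matrix.of fun x y : Fin n × Fin d =>
        (A.val x.1 y.1).coeff.sum fun g a => ι a * (ρ g).val x.2 y.2).det =
        α * ι (Matrix.of fun i j => (A.val i j).coeff.sum fun _ a => a).det ^ d *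
          (ρ γ).val.det) := by
  have hPA : ∀ g, PA (φ g) := hPL
  constructor
  · obtain ⟨γ, hγ⟩ := field_mainH A
    refine ⟨γ, ?_⟩
    have hG : ∀ H : Subgroup Γ, H.FG →
          {p : ℕ | p.Prime ∧ (∀ x y : H, x ^ p = y ^ p → x = y) ∧
            ∀ g : H, g ≠ 1 → ∃ k : ℕ, ∀ x : H, x ^ p ^ k ≠ g}.Infinite := by
      intro H hH
      have : Group.FG H := (Group.fg_iff_subgroup_fg H).2 hH
      have hfin := finite_bad (φ := φ.comp H.subtype) (fun g => hPA g)
        (hφ.comp H.subtype_injective)
      refine (Nat.infinite_setOfPred_prime.sdiff hfin).mono ?_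
      rintro p ⟨hp, hgood⟩
      have hgood' : Pool.Agent.H23R2.GoodPrime H p := by
        by_contra hcon
        exact hgood ⟨hp, hcon⟩
      exact ⟨hp, hgood'.inj, hgood'.div⟩
    intro s f hs hf
    exact hγ (hG _ (grpF_fg A)) s f hs hf
  · apply det_kd
    intro S
    have hS : (Subgroup.closure (S : Set Γ)).FG := ⟨S, rfl⟩
    have hcn := cn_PL hPA hφ _ hS
    refine ⟨⟨0, fun l hl _ x y hxy => ?_⟩, fun c hc => hcn.fd c hc⟩
    exact roots (φ := φ.comp (Subgroup.closure (S : Set Γ)).subtype)
      (hφ.comp (Subgroup.closure (S : Set Γ)).subtype_injective) (fun g => hPA g) x y l hl.pos hxy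

end Pool.Agent.Results.MP_c052b4_al.PiecewiseLinearTraces
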