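import Pool.Agent.X201.FJ.BTApp

/-!
# `GL₂` of polynomial rings and of rings with one place at infinity

`C` is any class of groups with the closure properties `ClosedE C`, for example the class of the groups
that satisfy the Farrell–Jones conjecture with coefficients and finite wreath products, and `F` is a field
such that `GL_n(F)` is in `C` for every `n`. Then `GL₂(F[X_σ])` is in `C` for every set `σ` of variables.
More generally `GL₂(O)` is in `C` for every commutative ring `O` embedded in a discretely valued field such
that `v ≤ 0` on `O ∖ 0` and, for each `n`, no nonzero element of valuation `≥ -n` is killed by some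
homomorphism from `O` to a finite-dimensional `F`-algebra which depends only on `n`.
-/

set_option autoImplicit false

namespace Pool.Agent.Results.MP_c052b4_al.PolynomialGL2

open Pool.Agent.Y110.FJ Pool.Agent.X201.BT
open Matrix

/-- Let `C` be a class of groups with the closure properties `ClosedE C` and let `F` be a field with
`GL_n(F)` in `C` for all `n`. (1) `GL₂` of the polynomial ring over `F` in any set of variables is in `C`.
(2) `GL₂(O)` is in `C` for every commutative ring `O` with a homomorphism `φ` to a field `K` with a
normalized discrete valuation `v` such that `φ a ≠ 0` and `v (φ a) ≤ 0` for all `a ≠ 0`, and such that for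
each `n` there is a homomorphism `χ` from `O` to a finite-dimensional `F`-algebra which kills no `a ≠ 0`
with `v (φ a) ≥ -n`. -/
theorem result (C : ∀ (G : Type) [Group G], Prop) (hC : ClosedE C) (F : Type) [Field F]
    (hGL : ∀ n : ℕ, C (GL (Fin n) F)) :
    (∀ σ : Type, C (GL (Fin 2) (MvPolynomial σ F))) ∧
    ∀ (O K : Type) [CommRing O] [Field K] (D : DVal K) (φ : O →+* K),
      (∀ a : O, a ≠ 0 → φ a ≠ 0 ∧ D.v (φ a) ≤ 0) →
      (∀ n : ℕ, ∃ (A : Type) (_ : Ring A) (_ : Algebra F A) (χ : O →+* A), Module.Finite F A ∧
        ∀ a : O, -(n : ℤ) ≤ D.v (φ a) → χ a = 0 → a = 0) →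
      C (GL (Fin 2) O) :=
  ⟨fun σ => poly_all (σ := σ) hC hGL, fun O K _ _ D φ h1 h2 => one_place hC F hGL O K D φ h1 h2⟩

end Pool.Agent.Results.MP_c052b4_al.PolynomialGL2
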